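import Pool.Agent.MWGI.StmtsE

/-!
# Squad MWGI, row EWI (MP_23468a_al): the edges
-/

set_option autoImplicit false

namespace Pool.Agent.MWGI.H27

open Pool.Agent.Helper14_MV Pool.Agent.Helper2_MV Pool.Agent.MVO Pool.Agent.MWL Pool.Agent.MWS
  Pool.Agent.MWH Pool.Agent.MWGI

/-- the triples -/
def QQ (k : ℕ) (B : ℕ → List ℕ) : List (ℕ × ℕ × ℕ) :=
  (List.range (k + 1)).flatMap (fun i => (B i).flatMap (fun x => (B i).map (fun a => (i, x, a))))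

theorem mem_QQ {k : ℕ} {B : ℕ → List ℕ} {i x a : ℕ} (hi : i ≤ k) (hx : x ∈ B i) (ha : a ∈ B i) :
    (i, x, a) ∈ QQ k B := by
  unfold QQ
  rw [List.mem_flatMap]
  refine ⟨i, List.mem_range.2 (by omega), ?_⟩
  rw [List.mem_flatMap]
  refine ⟨x, hx, ?_⟩
  rw [List.mem_map]
  exact ⟨a, ha, rfl⟩

theorem QQ_le {k : ℕ} {B : ℕ → List ℕ} {q : ℕ × ℕ × ℕ} (h : q ∈ QQ k B) : q.1 ≤ k := by
  unfold QQ at h
  rw [List.mem_flatMap] at h
  obtain ⟨i, hi, h⟩ := h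
  rw [List.mem_flatMap] at h
  obtain ⟨x, _, h⟩ := h
  rw [List.mem_map] at h
  obtain ⟨a, _, rfl⟩ := h
  have := List.mem_range.1 hi
  show i ≤ k
  omega

theorem tsk_triv {n : ℕ} {β : FIC} {k : ℕ} {B B' : ℕ → List ℕ} {M : FIC → Prop}
    (h : ∀ θ, M θ) : Tsk n β k B B' M :=
  ⟨[], by simp, fun θ _ _ => ⟨fun _ e he => by simp at he, fun _ => h θ⟩⟩

theorem tsk_mono {n : ℕ} {β : FIC} {k : ℕ} {B B' : ℕ → List ℕ} {M M' : FIC → Prop}
    (h : ∀ θ, M θ → M' θ) (hT : Tsk n β k B B' M) : Tsk n β k B B' M' := by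
  obtain ⟨L, h1, h2⟩ := hT
  exact ⟨L, h1, fun θ a b => ⟨(h2 θ a b).1, fun he => h θ ((h2 θ a b).2 he)⟩⟩

theorem tsk_and {n : ℕ} {β : FIC} {k : ℕ} {B B' : ℕ → List ℕ} {M M' : FIC → Prop}
    (hT : Tsk n β k B B' M) (hT' : Tsk n β k B B' M') :
    Tsk n β k B B' (fun θ => M θ ∧ M' θ) := by
  obtain ⟨L, h1, h2⟩ := hT
  obtain ⟨L', h1', h2'⟩ := hT'
  refine ⟨L ++ L', ?_, ?_⟩
  · intro e he
    rcases List.mem_append.1 he with he | he
    · exact h1 e he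
    · exact h1' e he
  · intro θ a b
    refine ⟨?_, ?_⟩
    · intro hr e he
      rcases List.mem_append.1 he with he | he
      · exact (h2 θ a b).1 hr e he
      · exact (h2' θ a b).1 hr e he
    · intro hL
      exact ⟨(h2 θ a b).2 (fun e he => hL e (List.mem_append_left _ he)),
        (h2' θ a b).2 (fun e he => hL e (List.mem_append_right _ he))⟩

/-- **EWI** -/
theorem ewi (h1 : TreStmt) (h2 : TleStmt) (h3 : TcrStmt) (h4 : TswStmt) (h7 : TsfStmt)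
    (h8 : DttStmt) (h9 : JpeStmt) : EwiStmt := by
  intro n β hR k B B' hok hok' heq hgm hgm'
  have hF : Fam n k B B' := ⟨hok, hok', heq, hgm⟩
  -- the first three kinds
  have t1 : Tsk n β k B B' (fun θ => ∀ q ∈ QQ k B, q.2.1 ≠ q.2.2 → 2 ≤ (B q.1).count q.2.1 →
      (B q.1).count q.2.2 = 1 → MRe n θ k B B' q.1 q.2.1 q.2.2) := by
    refine h7 n β k B B' (QQ k B) _ ?_
    intro q hq
    by_cases hc : q.2.1 ≠ q.2.2 ∧ 2 ≤ (B q.1).count q.2.1 ∧ (B q.1).count q.2.2 = 1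
    · exact tsk_mono (fun θ hm _ _ _ => hm)
        (h1 n β hR k B B' hF q.1 q.2.1 q.2.2 (QQ_le hq) hc.1 hc.2.1 hc.2.2)
    · exact tsk_triv (fun θ a b c => absurd ⟨a, b, c⟩ hc)
  have t2 : Tsk n β k B B' (fun θ => ∀ q ∈ QQ k B, q.2.1 ≠ q.2.2 → 2 ≤ (B q.1).count q.2.1 →
      (B q.1).count q.2.2 = 1 → MLe n θ k B B' q.1 q.2.1 q.2.2) := by
    refine h7 n β k B B' (QQ k B) _ ?_
    intro q hq
    by_cases hc : q.2.1 ≠ q.2.2 ∧ 2 ≤ (B q.1).count q.2.1 ∧ (B q.1).count q.2.2 = 1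
    · exact tsk_mono (fun θ hm _ _ _ => hm)
        (h2 n β hR k B B' hF q.1 q.2.1 q.2.2 (QQ_le hq) hc.1 hc.2.1 hc.2.2)
    · exact tsk_triv (fun θ a b c => absurd ⟨a, b, c⟩ hc)
  have t3 : Tsk n β k B B' (fun θ => ∀ q ∈ QQ k B, q.2.1 ≠ q.2.2 → 2 ≤ (B q.1).count q.2.1 →
      (B q.1).count q.2.2 = 1 → MCr n θ k B B' q.1 q.2.1 q.2.2) := by
    refine h7 n β k B B' (QQ k B) _ ?_
    intro q hq
    by_cases hc : q.2.1 ≠ q.2.2 ∧ 2 ≤ (B q.1).count q.2.1 ∧ (B q.1).count q.2.2 = 1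
    · exact tsk_mono (fun θ hm _ _ _ => hm)
        (h3 n β hR k B B' hF q.1 q.2.1 q.2.2 (QQ_le hq) hc.1 hc.2.1 hc.2.2)
    · exact tsk_triv (fun θ a b c => absurd ⟨a, b, c⟩ hc)
  -- exchanges
  have t4 : Tsk n β k B B' (fun θ => ∀ q ∈ QQ k B, q.2.1 ≠ q.2.2 → (B q.1).count q.2.1 = 1 →
      (B q.1).count q.2.2 = 1 → cb (B q.1) q.2.1 q.2.2 = 1 → cb (B' q.1) q.2.1 q.2.2 = 0 →
        MSw n θ k B B' q.1 q.2.1 q.2.2) := by
    refine h7 n β k B B' (QQ k B) _ ?_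
    intro q hq
    by_cases hc : q.2.1 ≠ q.2.2 ∧ (B q.1).count q.2.1 = 1 ∧ (B q.1).count q.2.2 = 1 ∧
        cb (B q.1) q.2.1 q.2.2 = 1 ∧ cb (B' q.1) q.2.1 q.2.2 = 0
    · obtain ⟨c1, c2, c3, c4, c5⟩ := hc
      exact tsk_mono (fun θ hm _ _ _ _ _ => hm)
        (h4 n β hR k B B' hF q.1 q.2.1 q.2.2 (QQ_le hq) c1 c2 c3 c4 c5)
    · exact tsk_triv (fun θ a b c d e => absurd ⟨a, b, c, d, e⟩ hc)
  obtain ⟨L, hL1, hL2⟩ := tsk_and (tsk_and t1 t2) (tsk_and t3 t4)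
  refine ⟨L.map (fun e => (e.l n, e.r n)), ?_, ?_⟩
  · intro e he
    obtain ⟨e', he', rfl⟩ := List.mem_map.1 he
    exact h9 n β hR e' (hL1 e' he')
  · intro θ hle hnc
    obtain ⟨k1, k2⟩ := hL2 θ hle hnc
    constructor
    · intro hr e he
      obtain ⟨e', he', rfl⟩ := List.mem_map.1 he
      exact k1 hr e' he'
    · intro hall
      have hed : ∀ e ∈ L, EdIn n (RR θ) e := fun e he =>
        hall (e.l n, e.r n) (List.mem_map.2 ⟨e, he, rfl⟩)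
      obtain ⟨⟨m1, m2⟩, m3, m4⟩ := k2 hed
      have le : ∀ {u v : List ℕ}, RR β u v → RR θ u v := fun hr => hle _ _ hr
      have hB' : BI n (RR θ) := ⟨hR.pos, le hR.per, le hR.r, le hR.hh, le hR.rn, le hR.l,
        fun p w w' q x hm => le (hR.it p w w' q x hm),
        fun p q w r x y hm => le (hR.f p q w r x y hm),
        fun p q w r x y hm => le (hR.f' p q w r x y hm),
        fun p q w r x a b h1 h2 h3 hm => le (hR.fe p q w r x a b h1 h2 h3 hm),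
        fun p q w r x a b h1 h2 h3 hm => le (hR.fe' p q w r x a b h1 h2 h3 hm)⟩
      refine h8 n k θ B B' hB' hF ?_ ?_
      · intro i hi x a hxa hx ha
        have hq : (i, x, a) ∈ QQ k B := mem_QQ hi (List.count_pos_iff.1 (by omega))
          (List.count_pos_iff.1 (by omega))
        exact ⟨m1 _ hq hxa hx ha, m2 _ hq hxa hx ha, m3 _ hq hxa hx ha⟩
      · intro i hi a b hab ha hb c1 c2
        have hq : (i, a, b) ∈ QQ k B := mem_QQ hi (List.count_pos_iff.1 (by omega))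
          (List.count_pos_iff.1 (by omega))
        exact m4 _ hq hab ha hb c1 c2

end Pool.Agent.MWGI.H27
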